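import Pool.Agent.H28.RC.Targets3
import Pool.Agent.H76.HK.EP

/-! (PSU) convergence of sums over primes. (PRC) only the primes of degree one matter. -/

set_option autoImplicit false

open NumberField Filter Topology

namespace Pool.Agent.H66.RC

open Pool.Agent.H28.RC Pool.Agent.H76.HK

section

variable (F : Type) [Field F] [NumberField F]

theorem norm_pos' (P : PrI F) : 0 < Ideal.absNorm P.1 := by
  rw [Nat.pos_iff_ne_zero, Ne, Ideal.absNorm_eq_zero_iff]
  exact P.2.2

theorem prI_summable {s : ℝ} (hs : 1 < s) :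
    Summable fun P : PrI F => (Ideal.absNorm P.1 : ℝ) ^ (-s) := by
  have h := (fiber_sum F (s := (s : ℂ)) (by simpa using hs)).1
  have h2 := h.comp_injective (i := fun P : PrI F => P.1) Subtype.val_injective
  refine h2.congr fun P => ?_
  change ‖(Ideal.absNorm P.1 : ℂ) ^ (-(s : ℂ))‖ = _
  rw [Complex.norm_natCast_cpow_of_pos (norm_pos' F P), Complex.neg_re, Complex.ofReal_re]

/-- the rational prime below -/
noncomputable def qP (P : PrI F) : ℕ := Ideal.absNorm (P.1.under ℤ)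

theorem qP_prime (P : PrI F) : (qP F P).Prime := by
  have := P.2.1
  have : NeZero P.1 := ⟨P.2.2⟩
  exact Nat.absNorm_under_prime P.1

theorem qP_mem (P : PrI F) : ((qP F P : ℕ) : 𝓞 F) ∈ P.1 := Int.absNorm_under_mem P.1

theorem card_fib (T : Finset (PrI F)) (m : ℕ) :
    (T.filter fun P => qP F P = m).card ≤ Module.finrank ℚ F := by
  classical
  by_cases hm : m.Prime
  · obtain ⟨S, hS1, hS2, hS3, -⟩ := primes_fin F m hm
    have h1 : (T.filter fun P => qP F P = m).card ≤ S.card := by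
      refine Finset.card_le_card_of_injOn (fun P => P.1) (fun P hP => ?_)
        (fun P _ Q _ h => Subtype.ext h)
      rw [Finset.mem_coe, Finset.mem_filter] at hP
      rw [Finset.mem_coe, hS1]
      refine ⟨P.2.1, P.2.2, ?_⟩
      have := qP_mem F P
      rwa [hP.2] at this
    refine h1.trans (le_trans ?_ hS3)
    rw [Finset.card_eq_sum_ones]
    exact Finset.sum_le_sum fun P hP => (hS2 P hP).1
  · have : (T.filter fun P => qP F P = m) = ∅ := by
      rw [Finset.filter_eq_empty_iff]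
      intro P _ h
      exact hm (h ▸ qP_prime F P)
    rw [this]
    exact Nat.zero_le _

theorem sum_q (T : Finset (PrI F)) :
    ∑ P ∈ T, (((qP F P : ℕ) : ℝ) ^ 2)⁻¹ ≤ (Module.finrank ℚ F : ℝ) * ∑' m : ℕ, ((m : ℝ) ^ 2)⁻¹ := by
  classical
  have hsm : Summable fun m : ℕ => ((m : ℝ) ^ 2)⁻¹ := Real.summable_nat_pow_inv.2 one_lt_two
  rw [Finset.sum_comp (fun m : ℕ => ((m : ℝ) ^ 2)⁻¹) (qP F)]
  calc ∑ m ∈ T.image (qP F), (T.filter fun P => qP F P = m).card • ((m : ℝ) ^ 2)⁻¹
      ≤ ∑ m ∈ T.image (qP F), (Module.finrank ℚ F : ℝ) * ((m : ℝ) ^ 2)⁻¹ := by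
        refine Finset.sum_le_sum fun m _ => ?_
        rw [nsmul_eq_mul]
        have := card_fib F T m
        gcongr
    _ = (Module.finrank ℚ F : ℝ) * ∑ m ∈ T.image (qP F), ((m : ℝ) ^ 2)⁻¹ := by
        rw [Finset.mul_sum]
    _ ≤ _ := by
        gcongr
        exact hsm.sum_le_tsum _ fun m _ => by positivity

theorem norm_not_prime (P : PrI F) (h : ¬ (Ideal.absNorm P.1).Prime) :
    qP F P ^ 2 ≤ Ideal.absNorm P.1 := by
  classical
  obtain ⟨S, hS1, hS2, -, -⟩ := primes_fin F (qP F P) (qP_prime F P)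
  obtain ⟨h1, h2⟩ := hS2 P.1 ((hS1 P.1).2 ⟨P.2.1, P.2.2, qP_mem F P⟩)
  rw [← h2] at h ⊢
  have h3 : 2 ≤ P.1.inertiaDeg ℤ := by
    by_contra hlt
    have h4 : P.1.inertiaDeg ℤ = 1 := by omega
    rw [h4, pow_one] at h
    exact h (qP_prime F P)
  exact Nat.pow_le_pow_right (qP_prime F P).pos h3

end

theorem pf_PSU : T_PSU := by
  intro F _ _ w B hB s hs
  refine Summable.of_norm_bounded ((prI_summable F hs).mul_left B) fun P => ?_
  rw [norm_mul, Real.norm_eq_abs, Real.norm_of_nonneg (by positivity)]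
  have := hB P.1
  gcongr

theorem pf_PRC : T_PRC := by
  classical
  intro F _ _ w w' B A hw hw' hA hww
  have hB0 : 0 ≤ B := (abs_nonneg _).trans (hw ⊤)
  refine ⟨2 * B * (A.ncard + (Module.finrank ℚ F : ℝ) * ∑' m : ℕ, ((m : ℝ) ^ 2)⁻¹), ?_⟩
  intro s hs
  have h1 := pf_PSU F w B hw s hs
  have h2 := pf_PSU F w' B hw' s hs
  unfold PR
  rw [← h1.tsum_sub h2]
  have h3 := h1.sub h2
  rw [← Real.norm_eq_abs]
  refine (norm_tsum_le_tsum_norm h3.norm).trans ?_
  refine h3.norm.tsum_le_of_sum_le fun T => ?_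
  have hpt : ∀ P : PrI F, ‖w P.1 * (Ideal.absNorm P.1 : ℝ) ^ (-s) -
      w' P.1 * (Ideal.absNorm P.1 : ℝ) ^ (-s)‖ ≤
      2 * B * ((if P.1 ∈ A then 1 else 0) + (((qP F P : ℕ) : ℝ) ^ 2)⁻¹) := by
    intro P
    have hN0 := norm_pos' F P
    have hN : (1 : ℝ) ≤ (Ideal.absNorm P.1 : ℝ) := by exact_mod_cast hN0
    have hd : |w P.1 - w' P.1| ≤ 2 * B := by
      have := abs_sub (w P.1) (w' P.1)
      have h4 := hw P.1
      have h5 := hw' P.1
      linarith
    rw [← sub_mul, norm_mul, Real.norm_eq_abs, Real.norm_of_nonneg (by positivity)]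
    have hq0 : (0 : ℝ) ≤ (((qP F P : ℕ) : ℝ) ^ 2)⁻¹ := by positivity
    by_cases hPA : P.1 ∈ A
    · rw [if_pos hPA]
      have h6 : (Ideal.absNorm P.1 : ℝ) ^ (-s) ≤ 1 :=
        Real.rpow_le_one_of_one_le_of_nonpos hN (by linarith)
      calc |w P.1 - w' P.1| * (Ideal.absNorm P.1 : ℝ) ^ (-s) ≤ 2 * B * 1 := by gcongr
        _ ≤ _ := by gcongr; linarith
    · rw [if_neg hPA, zero_add]
      by_cases hNp : (Ideal.absNorm P.1).Prime
      · rw [hww P.1 P.2.1 P.2.2 hNp hPA, sub_self, abs_zero, zero_mul]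
        positivity
      · have h6 : (Ideal.absNorm P.1 : ℝ) ^ (-s) ≤ (((qP F P : ℕ) : ℝ) ^ 2)⁻¹ := by
          calc (Ideal.absNorm P.1 : ℝ) ^ (-s) ≤ (Ideal.absNorm P.1 : ℝ) ^ (-1 : ℝ) :=
                Real.rpow_le_rpow_of_exponent_le hN (by linarith)
            _ = (Ideal.absNorm P.1 : ℝ)⁻¹ := Real.rpow_neg_one _
            _ ≤ _ := by
                have h7 := norm_not_prime F P hNp
                have h8 : (0 : ℝ) < ((qP F P : ℕ) : ℝ) ^ 2 := by
                  have := (qP_prime F P).pos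
                  positivity
                apply inv_anti₀ h8
                exact_mod_cast h7
        calc |w P.1 - w' P.1| * (Ideal.absNorm P.1 : ℝ) ^ (-s)
            ≤ 2 * B * (((qP F P : ℕ) : ℝ) ^ 2)⁻¹ := by gcongr
          _ ≤ _ := le_rfl
  refine (Finset.sum_le_sum fun P _ => hpt P).trans ?_
  rw [← Finset.mul_sum, Finset.sum_add_distrib]
  gcongr
  · rw [Finset.sum_ite, Finset.sum_const_zero, add_zero, Finset.sum_const, nsmul_eq_mul, mul_one]
    have h9 : (T.filter fun P => P.1 ∈ A).card ≤ A.ncard := by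
      rw [Set.ncard_eq_toFinset_card A hA]
      refine Finset.card_le_card_of_injOn (fun P => P.1) (fun P hP => ?_)
        (fun P _ Q _ h => Subtype.ext h)
      rw [Finset.mem_coe, Finset.mem_filter] at hP
      rw [Finset.mem_coe, Set.Finite.mem_toFinset]
      exact hP.2
    exact_mod_cast h9
  · exact sum_q F T

end Pool.Agent.H66.RC
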