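import Pool.Agent.H70.RC.Targets

/-! Row EVO: for good seeds the oracle is in P^NP. -/

set_option autoImplicit false

namespace Pool.Agent.H66.RC

open Finset Filter Pool.Agent.H6.NB Pool.Agent.H70.OQ Pool.Agent.H70.EH Pool.Agent.H70.EI
open Pool.Agent.H78.XQ Pool.Agent.H70.RC

lemma lst_some {n N : ℕ} {a : Ad n N} {w : List Bool} {s : Li n N} (h : lst a w = some s) :
    w = arrp s.1 (List.ofFn (a s)) := by
  classical
  unfold lst at h
  split_ifs at h with h1
  · have h2 := h1.choose_spec
    have h3 : h1.choose = s := Option.some.inj h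
    rw [h3] at h2
    exact h2

lemma evo_bound (c C n N : ℕ) (hn : 4 ≤ n) (hN : N = n ^ (c + 1) + c + 1) :
    (N * (N + 1 + 1 + N)) ^ (C + 1) + 1 ≤ n ^ ((2 * c + 5) * (C + 1)) + (2 * c + 5) * (C + 1) := by
  have h1 : c + 1 < 2 ^ (c + 1) := Nat.lt_two_pow_self
  have h2 : 2 ^ (c + 1) ≤ n ^ (c + 1) := Nat.pow_le_pow_left (by omega) _
  have h3 : N ≤ 2 * n ^ (c + 1) := by omega
  have h4 : N ≤ n ^ (c + 2) := by
    rw [pow_succ n (c + 1)]
    nlinarith
  have h5 : N + 1 + 1 + N ≤ n ^ (c + 3) := by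
    rw [pow_succ n (c + 2)]
    have h6 : 1 ≤ N := by omega
    nlinarith
  have h7 : N * (N + 1 + 1 + N) ≤ n ^ (2 * c + 5) := by
    have : n ^ (2 * c + 5) = n ^ (c + 2) * n ^ (c + 3) := by
      rw [← pow_add]; congr 1; ring
    rw [this]
    exact Nat.mul_le_mul h4 h5
  have h8 : (N * (N + 1 + 1 + N)) ^ (C + 1) ≤ n ^ ((2 * c + 5) * (C + 1)) := by
    rw [pow_mul]
    exact Nat.pow_le_pow_left h7 _
  have h9 : 1 ≤ (2 * c + 5) * (C + 1) := Nat.mul_pos (by omega) (by omega)
  omega

lemma pnp_var {V : Type} (t c : ℕ) (ht : 1 ≤ t) (hc : 1 ≤ c) (v : V) :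
    PNP t c (fun X : V → Bool => X v) := by
  obtain ⟨c', rfl⟩ : ∃ c', c = c' + 1 := ⟨c - 1, by omega⟩
  refine PNP.ask c' [[(v, true)]] _ (fun _ => false) (fun _ => true) ?_ (PNP.pure _ _)
    (PNP.pure _ _) ?_ ?_
  · refine ⟨?_, ?_⟩
    · simp only [List.length_cons, List.length_nil, zero_add]
      exact Nat.one_le_two_pow
    · intro T hT
      rw [List.mem_singleton] at hT
      subst hT
      simpa using ht
  · intro X hX
    obtain ⟨T, hT, hS⟩ := hX
    rw [List.mem_singleton] at hT
    subst hT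
    exact hS (v, true) (by simp)
  · intro X hX
    by_contra hcon
    apply hX
    refine ⟨[(v, true)], by simp, ?_⟩
    intro p hp
    rw [List.mem_singleton] at hp
    subst hp
    simpa using hcon

theorem pf_EVO (hVAL : T_VAL) (hPNM : T_PNM) (hORL : T_ORL) (hLIT : T_LIT) (hLVL : H70.RC.T_LVL)
    (hSTR : H70.RC.T_STR) : T_EVO := by
  intro V F t hNf c
  obtain ⟨C, hC⟩ := hLVL c
  refine ⟨(2 * c + 5) * (C + 1), fun n N hn hN D σ => ?_⟩
  obtain ⟨lv, hlv1, hlv2⟩ := hC n N hn hN
  have hb := evo_bound c C n N hn hN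
  have hN1 : 1 ≤ N := by omega
  have hnN : n ≤ N := by
    have : n ≤ n ^ (c + 1) := Nat.le_self_pow (by omega) n
    omega
  have ht : ∀ s : Li n N, t s.1 ≤ N ∧ 2 * t s.1 + 1 ≤ N + 1 := by
    intro s
    have h1 := hNf.sq s.1
    have h2 := s.2.2
    constructor
    · nlinarith
    · nlinarith
  have hlit : ∀ w, (∃ b, ∀ X, lbv V D X σ w = b) ∨ ∃ v, ∀ X, lbv V D X σ w = X v := by
    intro w
    exact (hLIT V n N D (fun _ => false) σ.1 σ.2.1 σ.2.2 w).2.2.2
  obtain ⟨G, hG1, hG2⟩ := hVAL (Fin n → Bool) (List Bool) (Li n N) (N + 1) (N + 1) N N (lst σ.1)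
    (fun X => lbv V D X σ) (fun s => F s.1) lv le_rfl (by omega) hN1
    (fun s => (hNf.len s.1).trans (Nat.pow_le_pow_right (by omega) (ht s).2))
    (fun s T hT => (hNf.tl s.1 T hT).trans (ht s).1) hlit (by
      intro s T hT p hp s' hs'
      apply hlv1
      have h1 := lst_some hs'
      have h2 := hSTR.2.2.1 s'.1 (σ.1 s')
      rw [← h1] at h2
      have h3 := hNf.ql s.1 T hT p hp
      have h4 := hNf.sq s.1
      have h5 : s'.1.length + 1 ≤ t s.1 := by omega
      nlinarith)
  refine ⟨fun w => if N < w.length then fun _ => false else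
    match lst σ.1 w with
    | some s => G s
    | none => fun X => lbv V D X σ w, ?_, ?_⟩
  · intro w
    have hc1 : 1 ≤ n ^ ((2 * c + 5) * (C + 1)) + (2 * c + 5) * (C + 1) := by
      have : 1 ≤ (2 * c + 5) * (C + 1) := Nat.mul_pos (by omega) (by omega)
      omega
    beta_reduce
    split_ifs with hw
    · exact PNP.pure _ _
    · cases hs : lst σ.1 w with
      | some s =>
        simp only
        refine hPNM _ _ _ _ _ _ _ le_rfl ?_ (hG1 s)
        refine le_trans ?_ (le_trans (Nat.le_succ _) hb)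
        refine Nat.pow_le_pow_right ?_ (Nat.succ_le_succ (hlv2 s))
        exact Nat.mul_pos hN1 (by omega)
      | none =>
        simp only
        rcases hlit w with ⟨b, hb'⟩ | ⟨v, hv⟩
        · have : (fun X => lbv V D X σ w) = fun _ => b := funext hb'
          rw [this]
          exact PNP.pure _ _
        · have : (fun X => lbv V D X σ w) = fun X => X v := funext hv
          rw [this]
          exact pnp_var _ _ (by omega) hc1 v
  · intro X hX w hw
    have horl := hORL V n N D X σ hnN
    set O := orc V (ins n N D X σ) with hO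
    set β : Li n N → Bool := fun s => open Classical in decide (ans V O s.1) with hβ
    have hβG : ∀ s, β s = G s X := by
      apply hG2 X β
      · intro s
        have h1 : β s = true ↔ ans V O s.1 := by
          simp only [hβ, decide_eq_true_iff]
        rw [h1, hNf.ans]
        have h2 : ∀ T ∈ F s.1, (Term.Sat O T ↔ Term.Sat (fv (lst σ.1) (lbv V D X σ) β) T) := by
          intro T hT
          have h3 : ∀ p ∈ T, O p.1 = fv (lst σ.1) (lbv V D X σ) β p.1 := by
            intro p hp
            exact horl p.1 ((hNf.ql s.1 T hT p hp).trans (ht s).1)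
          constructor
          · intro h p hp
            rw [← h3 p hp]; exact h p hp
          · intro h p hp
            rw [h3 p hp]; exact h p hp
        constructor
        · rintro ⟨T, hT, h⟩; exact ⟨T, hT, (h2 T hT).1 h⟩
        · rintro ⟨T, hT, h⟩; exact ⟨T, hT, (h2 T hT).2 h⟩
      · exact hX
    rw [horl w hw]
    beta_reduce
    rw [if_neg (not_lt.2 hw)]
    unfold fv
    cases hs : lst σ.1 w with
    | some s => exact hβG s
    | none => rfl

end Pool.Agent.H66.RC
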